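import Pool.Agent.H37.TigDefs

namespace Pool.Agent.Results.MP_eace5d_co.Tight

open Pool.Agent.H37.Tig Finset

theorem result (V : Type) [Fintype V] [DecidableEq V] (G : SimpleGraph V) [DecidableRel G.Adj]
    (hE : G.edgeFinset.Nonempty) (hP : PropP G) : Tight 3 6 G.edgeFinset id := by
  classical
  have adj_of : ∀ e ∈ G.edgeFinset, ∃ x y, G.Adj x y ∧ e = s(x, y) := by
    intro e he
    induction e using Sym2.ind with
    | _ x y => exact ⟨x, y, by simpa using he, rfl⟩
  constructor
  · intro V' E' hV hsub hin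
    rcases E'.eq_empty_or_nonempty with rfl | ⟨e, he⟩
    · simp only [card_empty]
      omega
    obtain ⟨x, y, h, rfl⟩ := adj_of e (hsub he)
    obtain ⟨S₁, S₂, S₃, hU, d12, d13, d23, -, -, -, h1, t12, t13, t23⟩ := hP x y h
    have hx : x ∈ V' := hin _ he x (Sym2.mem_mk_left x y)
    have hy : y ∈ V' := hin _ he y (Sym2.mem_mk_right x y)
    have hW : (V'.subtype (· ≠ y)).card + 1 = V'.card := by
      rw [card_subtype, filter_ne', card_erase_add_one hy]
    have con : ∀ S : Finset (Sym2 V), ConTight h.ne S → s(x, y) ∈ S →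
        (E' ∩ S).card + 4 ≤ 2 * V'.card := by
      intro S hS hm
      have := hS.1 (V'.subtype (· ≠ y)) ((E' ∩ S).erase s(x, y)) (by omega)
        (erase_subset_erase _ inter_subset_right) (by
          intro f hf w hw
          obtain ⟨v, hv, rfl⟩ := Sym2.mem_map.1 hw
          have hv' : v ∈ V' := hin f (mem_inter.1 (mem_of_mem_erase hf)).1 v hv
          rw [mem_subtype]
          unfold merge
          split_ifs
          · exact hx
          · exact hv')
      have h2 := card_erase_add_one (mem_inter.2 ⟨he, hm⟩)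
      omega
    have a := t12.1 V' (E' ∩ (S₁ ∪ S₂)) (by omega) inter_subset_right
      (fun f hf => hin f (mem_inter.1 hf).1)
    have b := con _ t13 (mem_union_left _ h1)
    have c := con _ t23 (mem_union_right _ (mem_singleton_self _))
    have dj : ∀ {A B : Finset (Sym2 V)}, Disjoint A B →
        (E' ∩ (A ∪ B)).card = (E' ∩ A).card + (E' ∩ B).card := fun hd => by
      rw [inter_union_distrib_left, card_union_of_disjoint
        (hd.mono inter_subset_right inter_subset_right)]
    have e1 : E' = E' ∩ (S₁ ∪ S₂ ∪ S₃) := by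
      rw [hU]
      exact (inter_eq_left.2 hsub).symm
    have e2 : E'.card = (E' ∩ S₁).card + (E' ∩ S₂).card + (E' ∩ S₃).card := by
      rw [← dj d12, ← dj (disjoint_union_left.2 ⟨d13, d23⟩), ← e1]
    have e3 : (E' ∩ {s(x, y)}).card = 1 := by
      rw [inter_singleton_of_mem he, card_singleton]
    rw [dj (disjoint_singleton_right.2 (fun hm => (mem_union.1 hm).elim
      (disjoint_left.1 d12 h1) (disjoint_left.1 d13 h1))), dj d23, e3] at c
    rw [dj d12] at a
    rw [dj d13] at b
    omega
  · obtain ⟨e, he⟩ := hE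
    obtain ⟨x, y, h, rfl⟩ := adj_of e he
    obtain ⟨S₁, S₂, S₃, hU, d12, d13, d23, c1, c2, c3, -⟩ := hP x y h
    rw [← hU, card_union_of_disjoint (disjoint_union_left.2 ⟨d13, d23⟩),
      card_union_of_disjoint d12]
    omega

end Pool.Agent.Results.MP_eace5d_co.Tight
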